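import Mathlib.Order.Filter.Cocardinal
import Mathlib.Order.Filter.Ultrafilter.Defs
import Mathlib.SetTheory.Cardinal.Regular
import Mathlib.SetTheory.Ordinal.Family
import Pool.Agent.W917.InjTree.NonSpecial

/-!
# MP_12b8e0_lc: the partition relation of Shelah fails for nonspecial trees

We refute Q1.  For a strongly compact cardinal `σ` take `κ = σ` (so `2 ^< κ = κ`).  There is a tree
that is not `(2 ^< κ)`-special and a colouring of its comparable pairs with countably many colours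
with no homogeneous chain of order type `κ + 2`; so the relation fails for all infinite `μ < σ`.
-/

namespace Pool.Agent.Results.MP_12b8e0_lc.InjectionTree

open Cardinal Ordinal Set

universe u

/-- A tree: the predecessors of every element are well-ordered. -/
def IsTree (T : Type u) [PartialOrder T] : Prop :=
  ∀ t : T, IsWellOrder (Set.Iio t) (· < ·)

/-- `T` is `lam`-special: some map from `T` to a set of size `lam` separates comparable elements. -/
def Special (T : Type u) [PartialOrder T] (lam : Cardinal.{u}) : Prop :=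
  ∃ f : T → lam.out, ∀ x y : T, x < y → f x ≠ f y

/-- `T → (α)²_μ`: every colouring of the pairs `x < y` with `μ` colours is constant on some chain
of order type `α` (the chain is given as a strictly increasing map on the ordinals below `α`). -/
def Arrow (T : Type u) [PartialOrder T] (α : Ordinal.{u}) (μ : Cardinal.{u}) : Prop :=
  ∀ c : T → T → μ.out, ∃ g : Set.Iio α → T, StrictMono g ∧
    ∃ i : μ.out, ∀ a b : Set.Iio α, a < b → c (g a) (g b) = i

/-- `σ` is strongly compact: `σ` is regular and uncountable and every proper `σ`-complete filter on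
any set extends to a `σ`-complete ultrafilter. -/
def StronglyCompact (σ : Cardinal.{u}) : Prop :=
  ℵ₀ < σ ∧ σ.IsRegular ∧ ∀ (X : Type u) (F : Filter X), F.NeBot → CardinalInterFilter F σ →
    ∃ U : Ultrafilter X, (U : Filter X) ≤ F ∧ CardinalInterFilter (U : Filter X) σ

section

variable {κ : Cardinal.{u}}

theorem bdd_of_lt (hκ : κ.IsRegular) {ι : Type u} (hι : #ι < κ) (f : ι → κ.ord.ToType) :
    ∃ b, ∀ x, f x ≤ b := by
  by_contra hcon
  push Not at hcon
  have hcof : IsCofinal (Set.range f) := by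
    intro b
    obtain ⟨x, hx⟩ := hcon b
    exact ⟨f x, ⟨x, rfl⟩, hx.le⟩
  have h1 := Order.cof_le hcof
  rw [Ordinal.cof_toType, hκ.cof_ord] at h1
  exact absurd (h1.trans mk_range_le) (not_le.2 hι)

theorem noMax (hκ : κ.IsRegular) (a : κ.ord.ToType) : ∃ b, a < b := by
  have := Cardinal.noMaxOrder hκ.aleph0_le
  exact exists_gt a

theorem bdd_Iic (hκ : κ.IsRegular) (a : κ.ord.ToType) (f : Set.Iic a → κ.ord.ToType) :
    ∃ b, ∀ x, f x ≤ b := by
  obtain ⟨a', ha'⟩ := noMax hκ a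
  refine bdd_of_lt hκ ?_ f
  have h1 : #(Set.Iio a') < #(κ.ord.ToType) := mk_Iio_lt a' (by simp)
  rw [mk_ord_toType] at h1
  exact (mk_le_mk_of_subset (fun x hx => lt_of_le_of_lt hx ha')).trans_lt h1

theorem bdd_nat (hκ : κ.IsRegular) (h0 : ℵ₀ < κ) (f : ℕ → κ.ord.ToType) :
    ∃ b, ∀ x, f x ≤ b := by
  obtain ⟨b, hb⟩ := bdd_of_lt hκ (ι := ULift.{u} ℕ) (by simpa using h0) (fun x => f x.down)
  exact ⟨b, fun n => hb ⟨n⟩⟩

end

/-- the witnessing tree -/
abbrev Tr (κ : Cardinal.{u}) : Type u := W917.InjTree.Node κ.ord.ToType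

theorem tr_isTree (κ : Cardinal.{u}) : IsTree (Tr κ) := fun t => W917.InjTree.Node.tree t

theorem tr_not_special {κ : Cardinal.{u}} (hκ : κ.IsRegular) (h0 : ℵ₀ < κ) :
    ¬ Special (Tr κ) κ := by
  rintro ⟨f, hf⟩
  have hc : #κ.out = #(κ.ord.ToType) := by rw [mk_ord_toType, mk_out]
  obtain ⟨e⟩ := Cardinal.eq.1 hc
  obtain ⟨s, t, hst, hft⟩ := W917.InjTree.nonspecial (bdd_Iic hκ) (bdd_nat hκ h0) (noMax hκ)
    (fun x => e (f x))
  exact hf s t hst (e.injective hft)

theorem tr_not_arrow {κ : Cardinal.{u}} (hκ : κ.IsRegular) {α : Ordinal.{u}}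
    (hα : κ.ord + 2 ≤ α) {μ : Cardinal.{u}} (hμ : ℵ₀ ≤ μ) : ¬ Arrow (Tr κ) α μ := by
  intro h
  have hinf : Infinite μ.out := by rw [Cardinal.infinite_iff, mk_out]; exact hμ
  let e : ℕ ↪ μ.out := Infinite.natEmbedding μ.out
  obtain ⟨g, hg, i, hi⟩ := h (fun s t => e (W917.InjTree.col s t))
  have hs : κ.ord < α := lt_of_lt_of_le (by simp) hα
  have ht : κ.ord + 1 < α := lt_of_lt_of_le (by
    rw [← one_add_one_eq_two, ← add_assoc]; exact lt_add_one _) hα
  have : Nonempty κ.ord.ToType := by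
    rw [Ordinal.nonempty_toType_iff]
    exact hκ.ord_pos.ne'
  have hx : ∀ a : κ.ord.ToType, (ToType.mk.symm a : Set.Iio κ.ord).1 < κ.ord := fun a =>
    (ToType.mk.symm a).2
  let x : κ.ord.ToType → Set.Iio α := fun a => ⟨(ToType.mk.symm a : Set.Iio κ.ord).1, (hx a).trans hs⟩
  have hxm : StrictMono x := by
    intro a b hab
    exact (ToType.mk.symm.strictMono hab : _)
  have hxs : ∀ a, x a < ⟨κ.ord, hs⟩ := fun a => hx a
  have hst : (⟨κ.ord, hs⟩ : Set.Iio α) < ⟨κ.ord + 1, ht⟩ := by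
    show κ.ord < κ.ord + 1
    exact lt_add_one _
  have hcol : ∀ a b : Set.Iio α, a < b → ∀ a' b' : Set.Iio α, a' < b' →
      W917.InjTree.col (g a) (g b) = W917.InjTree.col (g a') (g b') := by
    intro a b hab a' b' hab'
    exact e.injective ((hi a b hab).trans (hi a' b' hab').symm)
  refine W917.InjTree.no_chain (bdd_Iic hκ) (noMax hκ) (fun a => g (x a))
    (fun a b hab => hg (hxm hab)) (g ⟨κ.ord, hs⟩) (g ⟨κ.ord + 1, ht⟩) (fun a => hg (hxs a))
    (hg hst) (W917.InjTree.col (g ⟨κ.ord, hs⟩) (g ⟨κ.ord + 1, ht⟩)) ?_ ?_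
  · intro a b hab
    exact hcol _ _ (hxm hab) _ _ hst
  · intro a
    exact hcol _ _ ((hxs a).trans hst) _ _ hst

/-! ### strongly compact cardinals are strong limits -/

theorem StronglyCompact.two_power_lt {σ : Cardinal.{u}} (h : StronglyCompact σ) {ν : Cardinal.{u}}
    (hν : ν < σ) : (2 : Cardinal.{u}) ^ ν < σ := by
  classical
  by_contra hcon
  rw [not_lt] at hcon
  obtain ⟨h0, hreg, hF⟩ := h
  have h1 : #σ.out ≤ #(Set ν.out) := by
    rw [mk_set, mk_out, mk_out]; exact hcon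
  obtain ⟨e⟩ := Cardinal.le_def _ _ |>.1 h1
  have hne : (Filter.cocardinal σ.out hreg).NeBot := by
    rw [Filter.neBot_iff]
    intro hb
    have : (∅ : Set σ.out) ∈ Filter.cocardinal σ.out hreg := by rw [hb]; trivial
    rw [Filter.mem_cocardinal] at this
    simp at this
  obtain ⟨U, hU, hUc⟩ := hF σ.out (Filter.cocardinal σ.out hreg) hne inferInstance
  let S : ν.out → Set σ.out := fun i => if {x | i ∈ e x} ∈ U then {x | i ∈ e x} else {x | i ∈ e x}ᶜ
  have hS : ∀ i, S i ∈ (U : Filter σ.out) := by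
    intro i
    by_cases hc : {x | i ∈ e x} ∈ U
    · simp only [S, if_pos hc]; exact hc
    · simp only [S, if_neg hc]
      exact Ultrafilter.compl_mem_iff_notMem.2 hc
  have hI : (⋂ i, S i) ∈ (U : Filter σ.out) := by
    refine (Filter.cardinal_iInter_mem (c := σ) (by rw [mk_out]; exact hν)).2 hS
  have hsub : (⋂ i, S i).Subsingleton := by
    intro x hx y hy
    apply e.injective
    ext i
    have hxi := mem_iInter.1 hx i
    have hyi := mem_iInter.1 hy i
    by_cases hc : {x | i ∈ e x} ∈ U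
    · simp only [S, if_pos hc] at hxi hyi
      exact ⟨fun _ => hyi, fun _ => hxi⟩
    · simp only [S, if_neg hc] at hxi hyi
      exact ⟨fun h => absurd h hxi, fun h => absurd h hyi⟩
  have hsmall : #(⋂ i, S i : Set σ.out) < σ :=
    lt_of_le_of_lt (mk_le_one_iff_set_subsingleton.2 hsub) (one_lt_aleph0.trans h0)
  have hcompl : (⋂ i, S i)ᶜ ∈ (U : Filter σ.out) :=
    hU (Filter.compl_mem_cocardinal_of_card_lt (hreg := hreg) hsmall)
  have hemp : (∅ : Set σ.out) ∈ (U : Filter σ.out) := by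
    have := Filter.inter_mem hI hcompl
    rwa [inter_compl_self] at this
  exact absurd hemp U.empty_notMem

theorem StronglyCompact.powerlt_eq {σ : Cardinal.{u}} (h : StronglyCompact σ) :
    (2 : Cardinal.{u}) ^< σ = σ := by
  apply le_antisymm
  · rw [powerlt_le]
    intro ν hν
    exact (h.two_power_lt hν).le
  · by_contra hcon
    rw [not_le] at hcon
    exact absurd (le_powerlt (2 : Cardinal.{u}) hcon) (not_le.2 (cantor _))

theorem two_le_ord {μ : Cardinal.{u}} (hμ : ℵ₀ ≤ μ) : (2 : Ordinal.{u}) ≤ μ.ord := by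
  refine le_trans ?_ (ord_le_ord.2 hμ)
  rw [ord_aleph0]
  exact_mod_cast (natCast_lt_omega0 2).le

/-- **Main result.**

(1) For every regular uncountable `κ` there is a tree that is not `κ`-special and does not satisfy
`T → (κ + 2)²_ω`.

(2) If moreover `2 ^< κ = κ`, then for every infinite `μ` the relation
`non-(2 ^< κ)-special tree → (κ + μ)²_μ` fails.

(3) In particular Q1 fails: for every strongly compact `σ` and every infinite `μ < σ` the relation
`non-(2 ^< κ)-special tree → (κ + μ)²_μ` fails for `κ = σ`. -/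
theorem result :
    (∀ κ : Cardinal.{u}, κ.IsRegular → ℵ₀ < κ →
      ∃ (T : Type u) (_ : PartialOrder T), IsTree T ∧ ¬ Special T κ ∧ ¬ Arrow T (κ.ord + 2) ℵ₀) ∧
    (∀ κ : Cardinal.{u}, κ.IsRegular → ℵ₀ < κ → (2 : Cardinal.{u}) ^< κ = κ →
      ∀ μ : Cardinal.{u}, ℵ₀ ≤ μ →
      ∃ (T : Type u) (_ : PartialOrder T), IsTree T ∧ ¬ Special T ((2 : Cardinal.{u}) ^< κ) ∧
        ¬ Arrow T (κ.ord + μ.ord) μ) ∧
    (∀ σ : Cardinal.{u}, StronglyCompact σ → ∀ μ : Cardinal.{u}, ℵ₀ ≤ μ → μ < σ →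
      ∃ κ : Cardinal.{u}, κ.IsRegular ∧ σ ≤ κ ∧
      ∃ (T : Type u) (_ : PartialOrder T), IsTree T ∧ ¬ Special T ((2 : Cardinal.{u}) ^< κ) ∧
        ¬ Arrow T (κ.ord + μ.ord) μ) := by
  have h2 : ∀ κ : Cardinal.{u}, κ.IsRegular → ℵ₀ < κ → (2 : Cardinal.{u}) ^< κ = κ →
      ∀ μ : Cardinal.{u}, ℵ₀ ≤ μ →
      ∃ (T : Type u) (_ : PartialOrder T), IsTree T ∧ ¬ Special T ((2 : Cardinal.{u}) ^< κ) ∧
        ¬ Arrow T (κ.ord + μ.ord) μ := by
    intro κ hκ h0 hp μ hμ
    refine ⟨Tr κ, inferInstance, tr_isTree κ, ?_, ?_⟩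
    · rw [hp]; exact tr_not_special hκ h0
    · exact tr_not_arrow hκ (by gcongr; exact two_le_ord hμ) hμ
  refine ⟨?_, h2, ?_⟩
  · intro κ hκ h0
    exact ⟨Tr κ, inferInstance, tr_isTree κ, tr_not_special hκ h0, tr_not_arrow hκ le_rfl le_rfl⟩
  · intro σ hσ μ hμ _
    exact ⟨σ, hσ.2.1, le_rfl, h2 σ hσ.2.1 hσ.1 hσ.powerlt_eq μ hμ⟩

end Pool.Agent.Results.MP_12b8e0_lc.InjectionTree
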